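import Mathlib

namespace Pool.Agent.H.MP_be97b2_co

open MeasureTheory Set Metric

set_option linter.unusedSectionVars false

variable {X : Type} [MetricSpace X] [CompactSpace X] [MeasurableSpace X] [BorelSpace X]
  (ν : Measure X) [IsProbabilityMeasure ν]

theorem split [NullSingletonClass ν] {D : Set X} (hD : MeasurableSet D) {r : ℝ} (h0 : 0 ≤ r)
    (h1 : r ≤ ν.real D) : ∃ E ⊆ D, MeasurableSet E ∧ ν.real E = r := by
  obtain ⟨e, he⟩ := exists_measurableEmbedding_real X
  set f : X → ℝ := fun x => Real.arctan (e x)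
  have hm : Measurable f := Real.continuous_arctan.measurable.comp he.measurable
  have hi : Function.Injective f := Real.arctan_injective.comp he.injective
  have : NullSingletonClass ((ν.restrict D).map f) := ⟨fun y => by
    rw [Measure.map_apply hm (measurableSet_singleton y)]
    exact (subsingleton_singleton.preimage hi).measure_zero _⟩
  have hc := IntegrableOn.continuousOn_Iic_primitive_Iic (μ := (ν.restrict D).map f)
    (f := fun _ => (1 : ℝ)) (a₀ := 2) (integrable_const _).integrableOn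
  have key : ∀ b, ∫ _ in Iic b, (1 : ℝ) ∂(ν.restrict D).map f = ν.real (f ⁻¹' Iic b ∩ D) := by
    intro b
    rw [setIntegral_const, smul_eq_mul, mul_one, map_measureReal_apply hm measurableSet_Iic,
      measureReal_restrict_apply (hm measurableSet_Iic)]
  simp only [key] at hc
  have p := Real.pi_le_four
  have a1 : f ⁻¹' Iic (-2) = ∅ := eq_empty_of_forall_notMem fun x hx => by
    have := Real.neg_pi_div_two_lt_arctan (e x)
    have : Real.arctan (e x) ≤ -2 := hx
    linarith
  have a2 : f ⁻¹' Iic 2 = univ := eq_univ_of_forall fun x => by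
    have := Real.arctan_lt_pi_div_two (e x)
    change Real.arctan (e x) ≤ 2
    linarith
  obtain ⟨b, -, hb⟩ := intermediate_value_Icc (a := -2) (b := 2) (by norm_num)
    (hc.mono Icc_subset_Iic_self) (show r ∈ _ by simp [a1, a2, h0, h1])
  exact ⟨_, inter_subset_right, (hm measurableSet_Iic).inter hD, hb⟩

theorem ind {P : Set X → Prop} {δ : ℝ} (hδ : 0 < δ)
    (h1 : ∀ C, MeasurableSet C → (∀ x ∈ C, ∀ y ∈ C, dist x y < δ) → P C)
    (h2 : ∀ C D, MeasurableSet C → MeasurableSet D → Disjoint C D → P C → P D → P (C ∪ D))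
    (C : Set X) (hC : MeasurableSet C) : P C := by
  obtain ⟨t, -, ht, hc⟩ := finite_cover_balls_of_compact (isCompact_univ (X := X)) (half_pos hδ)
  suffices ∀ C, MeasurableSet C → C ⊆ ⋃ x ∈ t, ball x (δ / 2) → P C from
    this C hC ((subset_univ _).trans hc)
  clear hc
  induction t, ht using Set.Finite.induction_on with
  | empty => exact fun C hC h => h1 C hC fun x hx => by simpa using h hx
  | @insert a s _ _ ih =>
    intro C hC h
    rw [← inter_union_sdiff C (ball a (δ / 2))]
    refine h2 _ _ (hC.inter measurableSet_ball) (hC.diff measurableSet_ball)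
      (disjoint_sdiff_right.mono_left inter_subset_right)
      (h1 _ (hC.inter measurableSet_ball) fun x hx y hy => ?_)
      (ih _ (hC.diff measurableSet_ball) fun x hx => ?_)
    · have := dist_triangle_right x y a
      have := mem_ball.1 hx.2
      have := mem_ball.1 hy.2
      linarith
    · have := h hx.1
      rw [biUnion_insert] at this
      exact this.resolve_left hx.2

def Gd (q : X → ℝ) : Prop := Measurable q ∧ ∀ x, 0 ≤ q x ∧ q x ≤ 1

theorem ib {F : X → ℝ} (hF : Measurable F) (M : ℝ) (h : ∀ x, |F x| ≤ M) : Integrable F ν :=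
  Integrable.of_bound hF.aestronglyMeasurable M (Filter.Eventually.of_forall h)

theorem ic {F : X → ℝ} (h : Continuous F) : Integrable F ν :=
  h.integrable_of_hasCompactSupport (HasCompactSupport.of_compactSpace F)

theorem Gd.ab {q : X → ℝ} (h : Gd q) (x : X) : |q x| ≤ 1 := by
  rw [abs_of_nonneg (h.2 x).1]
  exact (h.2 x).2

theorem R0 [NullSingletonClass ν] {q : X → ℝ} (hq : Gd q) {δ ε : ℝ} (hδ : 0 < δ) (hε : 0 < ε)
    (C : Set X) (hC : MeasurableSet C) :
    ∃ E ⊆ C, MeasurableSet E ∧ ν.real E = ∫ x in C, q x ∂ν ∧ ∀ φ : X → ℝ, Continuous φ →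
      (∀ x y, dist x y < δ → |φ x - φ y| ≤ ε) →
      |∫ x in E, φ x ∂ν - ∫ x in C, q x * φ x ∂ν| ≤ 2 * ε * ν.real C := by
  have iq := ib ν hq.1 1 hq.ab
  have iq' : ∀ φ : X → ℝ, Continuous φ → Integrable (fun x => q x * φ x) ν := fun φ h =>
    (ic ν h).bdd_mul hq.1.aestronglyMeasurable (Filter.Eventually.of_forall hq.ab)
  revert C
  refine ind hδ (fun C hC h => ?_) ?_
  · obtain ⟨E, h1, h2, h3⟩ := split ν hC (r := ∫ x in C, q x ∂ν)
      (setIntegral_nonneg hC fun x _ => (hq.2 x).1) ((le_abs_self _).trans (by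
        simpa using norm_setIntegral_le_of_norm_le_const (μ := ν) (s := C) (f := q) (C := 1)
          (measure_lt_top _ _) fun x _ => hq.ab x))
    refine ⟨E, h1, h2, h3, fun φ hφ hm => ?_⟩
    rcases C.eq_empty_or_nonempty with rfl | ⟨y, hy⟩
    · simp [subset_empty_iff.1 h1]
    have a1 := norm_setIntegral_le_of_norm_le_const (μ := ν) (s := E) (f := fun x => φ x - φ y)
      (C := ε) (measure_lt_top _ _) fun x hx => hm _ _ (h _ (h1 hx) _ hy)
    have a2 := norm_setIntegral_le_of_norm_le_const (μ := ν) (s := C)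
      (f := fun x => q x * φ x - q x * φ y) (C := ε) (measure_lt_top _ _) fun x hx => by
        rw [← mul_sub, Real.norm_eq_abs, abs_mul]
        exact (mul_le_of_le_one_left (abs_nonneg _) (hq.ab x)).trans (hm _ _ (h _ hx _ hy))
    rw [integral_sub (ic ν hφ).integrableOn (integrable_const _), setIntegral_const, h3,
      Real.norm_eq_abs, smul_eq_mul, abs_le] at a1
    rw [integral_sub (iq' φ hφ).integrableOn (iq.mul_const _).integrableOn, integral_mul_const,
      Real.norm_eq_abs, abs_le] at a2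
    have a3 : ε * ∫ x in C, q x ∂ν ≤ ε * ν.real C := by
      rw [← h3]
      exact mul_le_mul_of_nonneg_left (measureReal_mono h1) hε.le
    rw [abs_le]
    constructor <;> linarith [a1.1, a1.2, a2.1, a2.2]
  · rintro C D hC hD hd ⟨E, e1, e2, e3, e4⟩ ⟨F, f1, f2, f3, f4⟩
    have hd' := hd.mono e1 f1
    refine ⟨E ∪ F, union_subset_union e1 f1, e2.union f2, ?_, fun φ hφ hm => ?_⟩
    · rw [measureReal_union hd' f2, setIntegral_union hd hD iq.integrableOn iq.integrableOn, e3, f3]
    · rw [setIntegral_union hd' f2 (ic ν hφ).integrableOn (ic ν hφ).integrableOn,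
        setIntegral_union hd hD (iq' φ hφ).integrableOn (iq' φ hφ).integrableOn,
        measureReal_union hd hD]
      have a1 := abs_le.1 (e4 φ hφ hm)
      have a2 := abs_le.1 (f4 φ hφ hm)
      rw [abs_le]
      constructor <;> linarith [a1.1, a1.2, a2.1, a2.2]

theorem mp {σ : X → X} (h : MeasurePreserving σ ν ν) {F : X → ℝ} (hF : Measurable F) :
    ∫ x, F (σ x) ∂ν = ∫ x, F x ∂ν := by
  rw [← integral_map h.measurable.aemeasurable hF.aestronglyMeasurable, h.map_eq]

def Sym (σ : X → X) : Prop := MeasurePreserving σ ν ν ∧ Isometry σ ∧ ∀ x, σ (σ x) = x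

theorem R1 [NullSingletonClass ν] {q : X → ℝ} (hq : Gd q) {ε : ℝ} (hε : 0 < ε)
    (C : Set X) (hC : MeasurableSet C) :
    ∃ p, Gd p ∧ (∀ x ∉ C, p x = q x) ∧ (∀ x ∈ C, p x = 0 ∨ p x = 1) ∧
      ∫ x, p x ∂ν = ∫ x, q x ∂ν ∧ ∀ σ, Sym ν σ → ∫ x, p x * p (σ x) ∂ν ≤
        ∫ x, q x * q (σ x) ∂ν + ε + ν.real (C ∩ σ ⁻¹' C) := by
  have iq := ib ν hq.1 1 hq.ab
  obtain ⟨h, h1, -⟩ := iq.exists_boundedContinuous_integral_sub_le (ε := ε / 8) (by positivity)
  obtain ⟨δ, hδ, h2⟩ := Metric.uniformContinuous_iff.1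
    (CompactSpace.uniformContinuous_of_continuous h.continuous) (ε / 8) (by positivity)
  obtain ⟨E, e1, e2, e3, e4⟩ := R0 ν hq hδ (ε := ε / 8) (by positivity) C hC
  set η : X → ℝ := fun x => E.indicator 1 x - C.indicator q x with hη
  have mη : Measurable η := (measurable_one.indicator e2).sub (hq.1.indicator hC)
  have η0 : ∀ x ∉ C, η x = 0 := fun x hx => by
    simp [hη, hx, indicator_of_notMem (fun h => hx (e1 h))]
  have η1 : ∀ x ∈ C, q x + η x = 0 ∨ q x + η x = 1 := fun x hx => by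
    by_cases h : x ∈ E <;> simp [hη, hx, h]
  have gp : Gd fun x => q x + η x := ⟨hq.1.add mη, fun x => by
    by_cases hx : x ∈ C
    · rcases η1 x hx with h | h <;> simp [h]
    · simpa [η0 x hx] using hq.2 x⟩
  have bη : ∀ x, |η x| ≤ 1 := fun x => by
    have := gp.2 x
    have := hq.2 x
    rw [abs_le]
    constructor <;> linarith [this.1, this.2]
  have iη : ∀ φ : X → ℝ, Integrable φ ν → Integrable (fun x => η x * φ x) ν := fun φ h =>
    h.bdd_mul mη.aestronglyMeasurable (Filter.Eventually.of_forall bη)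
  have k : ∀ φ : X → ℝ, Continuous φ →
      ∫ x, η x * φ x ∂ν = ∫ x in E, φ x ∂ν - ∫ x in C, q x * φ x ∂ν := fun φ hφ => by
    rw [← integral_indicator e2, ← integral_indicator hC, ← integral_sub ((ic ν hφ).indicator e2)
      (((ic ν hφ).bdd_mul hq.1.aestronglyMeasurable
        (Filter.Eventually.of_forall hq.ab)).indicator hC)]
    congr 1
    ext x
    by_cases h : x ∈ E <;> by_cases h' : x ∈ C <;> simp [hη, h, h', sub_mul]
  refine ⟨_, gp, fun x hx => by simp [η0 x hx], η1, ?_, fun σ ⟨s1, s2, s3⟩ => ?_⟩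
  · have := k (fun _ => 1) continuous_const
    simp only [mul_one, setIntegral_const, smul_eq_mul, e3, sub_self] at this
    rw [integral_add iq (ib ν mη 1 bη), this, add_zero]
  have ms := s1.measurable
  have iqs : Integrable (fun x => q (σ x)) ν := ib ν (hq.1.comp ms) 1 fun x => hq.ab _
  have iηs : Integrable (fun x => η (σ x)) ν := ib ν (mη.comp ms) 1 fun x => bη _
  have ch : Continuous fun x => h (σ x) := h.continuous.comp s2.continuous
  have a1 : ∫ x, q x * η (σ x) ∂ν = ∫ x, η x * q (σ x) ∂ν := by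
    rw [← mp ν s1 (F := fun x => η x * q (σ x)) (mη.mul (hq.1.comp ms))]
    simp only [s3, mul_comm]
  have a2 : ∫ x, η x * η (σ x) ∂ν ≤ ν.real (C ∩ σ ⁻¹' C) := by
    rw [← integral_indicator_one (hC.inter (ms hC))]
    refine integral_mono (iη _ iηs) ((integrable_const _).indicator (hC.inter (ms hC))) fun x => ?_
    by_cases hx : x ∈ C ∩ σ ⁻¹' C
    · rw [indicator_of_mem hx]
      refine (le_abs_self _).trans ?_
      rw [abs_mul]
      exact mul_le_one₀ (bη _) (abs_nonneg _) (bη _)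
    · rw [indicator_of_notMem hx]
      rcases not_and_or.1 hx with h | h
      · simp [η0 _ h]
      · simp [η0 (σ x) h]
  have a3 := (le_abs_self _).trans (e4 _ ch fun x y hxy =>
    (h2 (by rwa [s2.dist_eq])).le)
  rw [← k _ ch] at a3
  have a4 : ∫ x, η x * q (σ x) ∂ν - ∫ x, η x * h (σ x) ∂ν ≤ ε / 8 := by
    have m : Measurable fun x => ‖q x - h x‖ := (hq.1.sub h.continuous.measurable).norm
    rw [← integral_sub (iη _ iqs) (iη _ (ic ν ch))]
    rw [← mp ν s1 m] at h1
    refine le_trans (integral_mono ((iη _ iqs).sub (iη _ (ic ν ch))) (iqs.sub (ic ν ch)).norm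
      fun x => (le_abs_self _).trans ?_) h1
    rw [← mul_sub, abs_mul]
    exact mul_le_of_le_one_left (abs_nonneg _) (bη _)
  have a5 : ε * ν.real C ≤ ε := mul_le_of_le_one_right hε.le measureReal_le_one
  have i1 : Integrable (fun x => q x * q (σ x)) ν :=
    iqs.bdd_mul hq.1.aestronglyMeasurable (Filter.Eventually.of_forall hq.ab)
  have i2 : Integrable (fun x => q x * η (σ x)) ν :=
    iηs.bdd_mul hq.1.aestronglyMeasurable (Filter.Eventually.of_forall hq.ab)
  simp only [add_mul, mul_add]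
  rw [integral_add (by exact i1.add (iη _ iqs)) (by exact i2.add (iη _ iηs)),
    integral_add i1 (iη _ iqs), integral_add i2 (iη _ iηs), a1]
  linarith

theorem R2 [NullSingletonClass ν] {δ : ℝ} (hδ : 0 < δ) (C : Set X) (hC : MeasurableSet C) :
    ∀ ε > 0, ∀ q, Gd q → ∃ p, Gd p ∧ (∀ x ∉ C, p x = q x) ∧ (∀ x ∈ C, p x = 0 ∨ p x = 1) ∧
      ∫ x, p x ∂ν = ∫ x, q x ∂ν ∧ ∀ σ, Sym ν σ → ∫ x, p x * p (σ x) ∂ν ≤
        ∫ x, q x * q (σ x) ∂ν + ε + ν.real (C ∩ {x | dist x (σ x) < δ}) := by
  revert C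
  refine ind hδ (fun C hC h ε hε q hq => ?_) fun C D hC hD hd h1 h2 ε hε q hq => ?_
  · obtain ⟨p, a1, a2, a3, a4, a5⟩ := R1 ν hq hε C hC
    refine ⟨p, a1, a2, a3, a4, fun σ hσ => (a5 σ hσ).trans (add_le_add_right ?_ _)⟩
    exact measureReal_mono fun x hx => ⟨hx.1, h _ hx.1 _ hx.2⟩
  · obtain ⟨p, a1, a2, a3, a4, a5⟩ := h1 _ (half_pos hε) q hq
    obtain ⟨r, b1, b2, b3, b4, b5⟩ := h2 _ (half_pos hε) p a1
    refine ⟨r, b1, fun x hx => (b2 x fun h => hx (Or.inr h)).trans (a2 x fun h => hx (Or.inl h)),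
      fun x hx => ?_, b4.trans a4, fun σ hσ => ?_⟩
    · by_cases h : x ∈ D
      · exact b3 x h
      · rw [b2 x h]
        exact a3 x (hx.resolve_right h)
    · have m : MeasurableSet {x | dist x (σ x) < δ} :=
        (isOpen_lt (continuous_id.dist hσ.2.1.continuous) continuous_const).measurableSet
      rw [union_inter_distrib_right, measureReal_union
        (hd.mono inter_subset_left inter_subset_left) (hD.inter m)]
      linarith [a5 σ hσ, b5 σ hσ]

theorem R3 [NullSingletonClass ν] {δ ε : ℝ} (hδ : 0 < δ) (hε : 0 < ε) {q : X → ℝ} (hq : Gd q)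
    (h : ∫ x, q x ∂ν = 1 / 2) : ∃ B : Set X, MeasurableSet B ∧ ∀ σ, Sym ν σ →
      ν.real (B ∩ σ ⁻¹' B) ≤ ∫ x, q x * q (σ x) ∂ν + ε + ν.real {x | dist x (σ x) < δ} ∧
      ν.real (Bᶜ ∩ σ ⁻¹' Bᶜ) = ν.real (B ∩ σ ⁻¹' B) := by
  obtain ⟨p, a1, -, a3, a4, a5⟩ := R2 ν hδ univ .univ ε hε q hq
  have hB : MeasurableSet (p ⁻¹' {1}) := a1.1 (measurableSet_singleton _)
  have hp : p = (p ⁻¹' {1}).indicator 1 := funext fun x => by
    rcases a3 x trivial with h | h <;> simp [indicator, h]
  refine ⟨_, hB, fun σ hσ => ⟨?_, ?_⟩⟩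
  · have := a5 σ hσ
    rw [univ_inter] at this
    refine le_trans (le_of_eq ?_) this
    rw [← integral_indicator_one (hB.inter (hσ.1.measurable hB))]
    congr 1
    ext x
    rcases a3 x trivial with h | h <;> rcases a3 (σ x) trivial with h' | h' <;>
      simp [indicator, h, h']
  · rw [hp, integral_indicator_one hB, h] at a4
    have b1 := measureReal_union_add_inter (μ := ν) (s := p ⁻¹' {1}) (hσ.1.measurable hB)
    rw [hσ.1.measureReal_preimage hB.nullMeasurableSet, a4] at b1
    rw [preimage_compl, ← compl_union, measureReal_compl (hB.union (hσ.1.measurable hB)),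
      probReal_univ]
    linarith

end Pool.Agent.H.MP_be97b2_co
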