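import Pool.Agent.H.MP_be97b2_co.A

namespace Pool.Agent.H.MP_be97b2_co

open MeasureTheory Set Metric Filter Topology
open scoped RealInnerProductSpace Pointwise

abbrev E : Type := EuclideanSpace ℝ (Fin 3)

abbrev X : Type := Metric.sphere (0 : E) 1

noncomputable def nu : Measure X :=
  ((volume : Measure E).toSphere univ)⁻¹ • (volume : Measure E).toSphere

instance : IsProbabilityMeasure nu := ⟨by
  rw [nu, Measure.smul_apply, smul_eq_mul]
  exact ENNReal.inv_mul_cancel (by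
    rw [Ne, Measure.measure_univ_eq_zero]
    exact Measure.toSphere_ne_zero _) (measure_ne_top _ _)⟩

instance : nu.IsOpenPosMeasure :=
  Measure.isOpenPosMeasure_smul _ (ENNReal.inv_ne_zero.2 (measure_ne_top _ _))

theorem nx (x : X) : ‖(x : E)‖ = 1 := by simp

noncomputable def up (g : E ≃ₗᵢ[ℝ] E) (x : X) : X := ⟨g x, by simp⟩

theorem up_iso (g : E ≃ₗᵢ[ℝ] E) : Isometry (up g) :=
  Isometry.of_dist_eq fun x y => g.dist_map x y

theorem up_mp (g : E ≃ₗᵢ[ℝ] E) : MeasurePreserving (up g) nu nu := by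
  have hm := (up_iso g).continuous.measurable
  refine ⟨hm, Measure.ext fun s hs => ?_⟩
  rw [Measure.map_apply hm hs, nu, Measure.smul_apply, Measure.smul_apply,
    Measure.toSphere_apply' _ hs, Measure.toSphere_apply' _ (hm hs),
    ← g.measurePreserving.measure_preimage_emb g.toHomeomorph.measurableEmbedding
      (Ioo (0 : ℝ) 1 • (Subtype.val '' s))]
  congr 3
  ext y
  constructor
  · rintro ⟨t, ht, _, ⟨x, hx, rfl⟩, rfl⟩
    exact ⟨t, ht, _, ⟨_, hx, rfl⟩, (g.map_smul _ _).symm⟩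
  · rintro ⟨t, ht, _, ⟨x, hx, rfl⟩, h⟩
    refine ⟨t, ht, _, ⟨up g.symm x, ?_, rfl⟩, g.injective ?_⟩
    · change up g (up g.symm x) ∈ s
      convert hx
      exact Subtype.ext (g.apply_symm_apply _)
    · rw [← h]
      simp [up]

instance : NullSingletonClass nu := ⟨fun x => by
  have : (volume : Measure E) (Ioo (0 : ℝ) 1 • ((↑) '' ({x} : Set X))) = 0 := by
    refine measure_mono_null ?_ (Measure.addHaar_submodule _ (ℝ ∙ (x : E)) fun h => ?_)
    · rintro _ ⟨t, -, _, ⟨_, rfl, rfl⟩, rfl⟩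
      exact Submodule.smul_mem _ _ (Submodule.mem_span_singleton_self _)
    · have := finrank_span_singleton (K := ℝ) (v := (x : E)) (norm_ne_zero_iff.1 (by simp))
      rw [h] at this
      simp at this
  rw [nu, Measure.smul_apply, Measure.toSphere_apply' _ (measurableSet_singleton x), this]
  simp⟩

theorem half (g : E ≃ₗᵢ[ℝ] E) (h0 : g ≠ LinearIsometryEquiv.refl ℝ E) (h1 : ∀ x, g (g x) = x)
    (h2 : LinearMap.det (g.toLinearEquiv : E →ₗ[ℝ] E) = 1) :
    ∃ v : E, ‖v‖ = 1 ∧ ∀ x, g x = (2 * ⟪v, x⟫) • v - x := by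
  set K : Submodule ℝ E := LinearMap.eqLocus (g.toLinearEquiv : E →ₗ[ℝ] E) LinearMap.id
  have hK : ∀ x, x ∈ K ↔ g x = x := fun x => Iff.rfl
  have hg : g = K.reflection := by
    ext1 x
    rw [Submodule.reflection_apply, Submodule.eq_starProjection_of_mem_of_inner_eq_zero
      (v := (1 / 2 : ℝ) • (x + g x))]
    · module
    · rw [hK, map_smul, map_add, h1, add_comm]
    · intro w hw
      have := g.inner_map_map x w
      rw [(hK w).1 hw] at this
      rw [inner_sub_left, inner_smul_left, inner_add_left, this]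
      simp only [conj_trivial]
      ring
  have h3 := K.det_reflection
  have h4 := K.finrank_add_finrank_orthogonal
  rw [← hg] at h3
  have h5 : (-1 : ℝ) ^ Module.finrank ℝ Kᗮ = 1 := h3.symm.trans h2
  have h6 : Module.finrank ℝ K ≠ 3 := fun h => h0 (by
    have : K = ⊤ := Submodule.eq_top_of_finrank_eq (by simpa using h)
    ext1 x
    exact (hK x).1 (this ▸ trivial))
  rw [neg_one_pow_eq_one_iff_even (by norm_num), Nat.even_iff] at h5
  have h7 : Module.finrank ℝ K = 1 := by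
    simp only [finrank_euclideanSpace, Fintype.card_fin] at h4
    omega
  obtain ⟨w, hw, hw0⟩ := Submodule.exists_mem_ne_zero_of_ne_bot (p := K) fun h => by
    rw [h] at h7
    simp at h7
  have hv : ‖(‖w‖⁻¹ : ℝ) • w‖ = 1 := norm_smul_inv_norm hw0
  refine ⟨_, hv, fun x => ?_⟩
  have h8 := eq_span_singleton_of_mem_of_finrank_eq_one h7 (K.smul_mem ‖w‖⁻¹ hw)
    (norm_ne_zero_iff.1 (by simp [hv]))
  have h9 := Submodule.reflection_singleton_apply (𝕜 := ℝ) ((‖w‖⁻¹ : ℝ) • w) x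
  simp only [← h8] at h9
  rw [hg, h9, hv]
  simp only [RCLike.ofReal_one, one_pow, div_one]
  module

noncomputable def e3 : E := EuclideanSpace.single 2 1

theorem ne3 : ‖e3‖ = 1 := by simp [e3]

theorem rot {v : E} (hv : ‖v‖ = 1) : ∃ R : E ≃ₗᵢ[ℝ] E, ∀ x, ⟪v, x⟫ = ⟪e3, R x⟫ :=
  ⟨(ℝ ∙ (v - e3))ᗮ.reflection, fun x => by
    rw [← LinearIsometryEquiv.inner_map_map (ℝ ∙ (v - e3))ᗮ.reflection,
      Submodule.reflection_sub (hv.trans ne3.symm)]⟩

theorem small {ε : ℝ} (hε : 0 < ε) : ∃ δ > 0, ∀ (g : E ≃ₗᵢ[ℝ] E) (v : E), ‖v‖ = 1 →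
    (∀ x, g x = (2 * ⟪v, x⟫) • v - x) → nu.real {x | dist x (up g x) < δ} ≤ ε := by
  set K : ℕ → Set X := fun n => {x | 1 - 1 / ((n : ℝ) + 1) ≤ ⟪e3, (x : E)⟫ ^ 2}
  have mK : ∀ n, MeasurableSet (K n) := fun n =>
    (isClosed_le continuous_const (by fun_prop)).measurableSet
  have h1 := tendsto_measure_iInter_atTop (μ := nu) (fun n => (mK n).nullMeasurableSet)
    (fun m n h x hx => (sub_le_sub_left (Nat.one_div_le_one_div (α := ℝ) h) 1).trans hx)
    ⟨0, measure_ne_top _ _⟩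
  have h2 : nu (⋂ n, K n) = 0 := by
    refine Finite.measure_zero (Finite.of_finite_image (f := Subtype.val)
      ((toFinite {e3, -e3}).subset ?_) Subtype.val_injective.injOn) _
    rintro _ ⟨x, hx, rfl⟩
    have : 1 ≤ ⟪e3, (x : E)⟫ ^ 2 := by
      have := tendsto_one_div_add_atTop_nhds_zero_nat (𝕜 := ℝ) |>.const_sub 1
      rw [sub_zero] at this
      exact le_of_tendsto' this fun n => mem_iInter.1 hx n
    have a1 := norm_sub_sq_real (x : E) e3
    have a2 := norm_add_sq_real (x : E) e3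
    rw [nx, ne3, real_inner_comm] at a1 a2
    have : ‖(x : E) - e3‖ ^ 2 * ‖(x : E) + e3‖ ^ 2 = 0 :=
      le_antisymm (by rw [a1, a2]; nlinarith) (by positivity)
    simpa [sub_eq_zero, add_eq_zero_iff_eq_neg] using this
  rw [h2] at h1
  obtain ⟨n, hn⟩ := (h1.eventually (ge_mem_nhds (ENNReal.ofReal_pos.2 hε))).exists
  have hn1 : (0 : ℝ) < 1 / ((n : ℝ) + 1) := by positivity
  have hn2 : 1 / ((n : ℝ) + 1) ≤ 1 := by
    rw [div_le_one (by positivity)]
    linarith [n.cast_nonneg (α := ℝ)]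
  refine ⟨_, hn1, fun g v hv hg => ?_⟩
  obtain ⟨R, hR⟩ := rot hv
  refine le_trans (measureReal_mono (μ := nu) (s₂ := up R ⁻¹' K n) fun x hx => ?_) ?_
  · change _ ≤ ⟪e3, R x⟫ ^ 2
    have a1 : ‖(x : E) - g x‖ < 1 / ((n : ℝ) + 1) := by
      rw [← dist_eq_norm]
      exact hx
    have a2 := norm_sub_sq_real (x : E) (g x)
    rw [g.norm_map, nx, hg x, inner_sub_right, inner_smul_right, real_inner_self_eq_norm_sq, nx,
      real_inner_comm v, ← hg x] at a2
    rw [← hR]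
    nlinarith [norm_nonneg ((x : E) - g x)]
  · rw [(up_mp R).measureReal_preimage (mK n).nullMeasurableSet]
    exact ENNReal.toReal_le_of_le_ofReal hε.le hn

noncomputable def cc (n : ℕ) : ℝ := ∫ x, ⟪e3, (x : E)⟫ ^ (2 * n) ∂nu

theorem cc_pos (n : ℕ) : 0 < cc n := by
  refine Continuous.integral_pos_of_hasCompactSupport_nonneg_nonzero (x := ⟨e3, by simp [ne3]⟩)
    (by fun_prop) (HasCompactSupport.of_compactSpace _) (fun x => (even_two_mul n).pow_nonneg _) ?_
  simp [ne3]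

theorem mom (a : E) (n : ℕ) : ∫ x, ⟪a, (x : E)⟫ ^ (2 * n) ∂nu = cc n * (‖a‖ ^ 2) ^ n := by
  obtain ⟨v, hv, h⟩ : ∃ v : E, ‖v‖ = 1 ∧ a = ‖a‖ • v := by
    by_cases h : a = 0
    · exact ⟨e3, ne3, by simp [h]⟩
    · exact ⟨_, norm_smul_inv_norm (𝕜 := ℝ) h, by
        simp [smul_smul, mul_inv_cancel₀ (norm_ne_zero_iff.2 h)]⟩
  obtain ⟨R, hR⟩ := rot hv
  have : ∀ x : X, ⟪a, (x : E)⟫ ^ (2 * n) = ⟪e3, (up R x : E)⟫ ^ (2 * n) * (‖a‖ ^ 2) ^ n := by
    intro x
    conv_lhs => rw [h, real_inner_smul_left, hR, mul_pow, pow_mul, mul_comm]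
    rfl
  simp only [this]
  rw [integral_mul_const, mp nu (up_mp R) (F := fun x : X => ⟪e3, (x : E)⟫ ^ (2 * n))
    (Continuous.measurable (by fun_prop))]
  rfl

end Pool.Agent.H.MP_be97b2_co
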