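import Pool.Agent.H.MP_be97b2_co.B

namespace Pool.Agent.H.MP_be97b2_co

open MeasureTheory Set Polynomial
open scoped RealInnerProductSpace

abbrev A : Type := C(X, ℂ)

theorem iA (f : A) : Integrable f nu :=
  f.continuous.integrable_of_hasCompactSupport (HasCompactSupport.of_compactSpace f)

noncomputable def J : A →ₗ[ℂ] ℂ where
  toFun f := ∫ x, f x ∂nu
  map_add' f g := integral_add (iA f) (iA g)
  map_smul' c f := integral_smul c f

abbrev V : Type := Fin 3 → ℂ

noncomputable def ell : V →ₗ[ℂ] A where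
  toFun a := ⟨fun x => ∑ i, a i * ((x : E) i : ℂ), by fun_prop⟩
  map_add' a b := by
    ext x
    simp [add_mul, Finset.sum_add_distrib]
  map_smul' c a := by
    ext x
    simp [Finset.mul_sum, mul_assoc]

theorem ext0 (P : A[X]) (Q : ℂ[X])
    (h : ∀ s : ℝ, J (P.eval (algebraMap ℂ A s)) = Q.eval (s : ℂ)) :
    (∀ s : ℂ, J (P.eval (algebraMap ℂ A s)) = Q.eval s) ∧ ∀ j, J (P.coeff j) = Q.coeff j := by
  set F : ℂ[X] := ∑ j ∈ P.support, monomial j (J (P.coeff j))
  have h1 : ∀ s : ℂ, F.eval s = J (P.eval (algebraMap ℂ A s)) := fun s => by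
    rw [eval_eq_sum (p := P), Polynomial.sum, map_sum, eval_finsetSum]
    refine Finset.sum_congr rfl fun j _ => ?_
    rw [eval_monomial, ← map_pow, mul_comm (P.coeff j), ← Algebra.smul_def, map_smul, smul_eq_mul,
      mul_comm]
  have h2 : F = Q := eq_of_infinite_eval_eq _ _
    ((infinite_range_of_injective Complex.ofReal_injective).mono (by
      rintro _ ⟨s, rfl⟩
      exact (h1 s).trans (h s)))
  refine ⟨fun s => by rw [← h1, h2], fun j => ?_⟩
  rw [← h2, finsetSum_coeff, Finset.sum_eq_single j]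
  · simp
  · intro b _ hb
    simp [coeff_monomial, hb]
  · intro hj
    simp [notMem_support_iff.1 hj]

theorem m0 (a : Fin 3 → ℝ) (n : ℕ) : J (ell (fun i => (a i : ℂ)) ^ (2 * n)) =
    cc n * ((fun i => (a i : ℂ)) ⬝ᵥ fun i => (a i : ℂ)) ^ n := by
  have h := congrArg (fun t : ℝ => (t : ℂ)) (mom (WithLp.toLp 2 a) n)
  simp only [← integral_complex_ofReal, EuclideanSpace.real_norm_sq_eq] at h
  refine Eq.trans ?_ (h.trans ?_)
  · refine integral_congr_ae (Filter.Eventually.of_forall fun x => ?_)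
    simp [ell, PiLp.inner_apply, mul_comm]
  · simp [dotProduct, sq]

theorem m1 (a : V) (n : ℕ) : J (ell a ^ (2 * n)) = cc n * (a ⬝ᵥ a) ^ n := by
  set p : V := fun i => ((a i).re : ℂ)
  set q : V := fun i => ((a i).im : ℂ)
  have e : ∀ s : ℂ, ((C (ell p) + C (ell q) * Polynomial.X) ^ (2 * n)).eval (algebraMap ℂ A s) =
      ell (p + s • q) ^ (2 * n) := fun s => by
    simp only [eval_mul, eval_C, eval_X, eval_pow, eval_add, map_add, map_smul]
    rw [mul_comm (ell q), ← Algebra.smul_def]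
  have e' : ∀ s : ℂ, (C (cc n : ℂ) * (C (p ⬝ᵥ p) + C (2 * p ⬝ᵥ q) * Polynomial.X +
      C (q ⬝ᵥ q) * Polynomial.X ^ 2) ^ n).eval s = cc n * ((p + s • q) ⬝ᵥ (p + s • q)) ^ n := by
    intro s
    simp only [eval_mul, eval_C, eval_pow, eval_add, eval_X, add_dotProduct, dotProduct_add,
      smul_dotProduct, dotProduct_smul, smul_eq_mul, dotProduct_comm q p]
    ring
  have := (ext0 _ _ fun s => by
    rw [e, e']
    convert m0 (fun i => (a i).re + s * (a i).im) n using 4 <;> ext <;> simp [p, q]).1 Complex.I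
  rw [e, e'] at this
  convert this using 4 <;> ext i <;> simp [p, q, mul_comm Complex.I]

noncomputable def ka (n : ℕ) : ℝ := cc n * 2 ^ n / (2 * n).choose n

theorem ka_pos (n : ℕ) : 0 < ka n :=
  div_pos (mul_pos (cc_pos n) (by positivity)) (Nat.cast_pos.2 (Nat.choose_pos (by omega)))

theorem ss {a b : V} (ha : a ⬝ᵥ a = 0) (hb : b ⬝ᵥ b = 0) (i j n : ℕ) (h : i + j = 2 * n) :
    J (ell a ^ i * ell b ^ j) = if j = n then ka n * (a ⬝ᵥ b) ^ n else 0 := by
  have := (ext0 (((Polynomial.X + C (ell a)) ^ (2 * n)).comp (C (ell b) * Polynomial.X))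
    (C (cc n * (2 * a ⬝ᵥ b) ^ n) * Polynomial.X ^ n) fun s => by
      have := m1 (a + (s : ℂ) • b) n
      simp only [add_dotProduct, dotProduct_add, smul_dotProduct, dotProduct_smul, smul_eq_mul,
        dotProduct_comm b a, ha, hb, map_add, map_smul] at this
      simp only [eval_comp, eval_mul, eval_C, eval_X, eval_pow, eval_add]
      rw [mul_comm (ell b), ← Algebra.smul_def, add_comm, this]
      ring).2 j
  rw [comp_C_mul_X_coeff, coeff_X_add_C_pow, coeff_C_mul, coeff_X_pow,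
    show 2 * n - j = i by omega, mul_right_comm, mul_comm, ← nsmul_eq_mul, map_nsmul,
    nsmul_eq_mul] at this
  have hc : (((2 * n).choose j : ℕ) : ℂ) ≠ 0 := Nat.cast_ne_zero.2 (Nat.choose_pos (by omega)).ne'
  refine mul_left_cancel₀ hc (this.trans ?_)
  split_ifs with h
  · subst h
    simp only [ka]
    push_cast
    field_simp
    ring
  · simp

noncomputable def qd {R : Type} [CommRing R] (p q r : R) : R[X] :=
  C p + C q * Polynomial.X + C r * Polynomial.X ^ 2

theorem der (a e c : V) (φ : A) (k : ℕ) (Q : ℂ[X])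
    (h : ∀ s : ℂ, J (ell (a + s • e + s ^ 2 • c) ^ (k + 1) * φ) = Q.eval s) :
    (k + 1) * J (ell a ^ k * ell e * φ) = (derivative Q).eval 0 := by
  have := (ext0 (qd (ell a) (ell e) (ell c) ^ (k + 1) * C φ) Q fun s => by
    rw [← h]
    simp only [qd, eval_mul, eval_C, eval_X, eval_pow, eval_add, map_add, map_smul]
    rw [mul_comm (ell e), mul_comm (ell c), ← map_pow, ← Algebra.smul_def,
      ← Algebra.smul_def]).2 1
  have e1 : ∀ P : A[X], P.coeff 1 = (derivative P).eval 0 := fun P => by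
    rw [← coeff_zero_eq_eval_zero, coeff_derivative]
    simp
  rw [e1] at this
  rw [← coeff_zero_eq_eval_zero, coeff_derivative]
  simp only [zero_add, Nat.cast_zero, mul_one, ← this]
  rw [← Nat.cast_succ, ← nsmul_eq_mul, ← map_nsmul]
  congr 1
  simp [qd, derivative_pow, mul_assoc]

def Fr (a e : V) : Prop := ∃ c : V, ∀ s : ℂ, (a + s • e + s ^ 2 • c) ⬝ᵥ (a + s • e + s ^ 2 • c) = 0

theorem Fr.iso {a e : V} (h : Fr a e) : a ⬝ᵥ a = 0 := by
  obtain ⟨c, h⟩ := h
  simpa using h 0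

theorem qd_ev (a e c b : V) (s : ℂ) :
    (qd (a ⬝ᵥ b) (e ⬝ᵥ b) (c ⬝ᵥ b)).eval s = (a + s • e + s ^ 2 • c) ⬝ᵥ b := by
  simp only [qd, eval_mul, eval_C, eval_X, eval_pow, eval_add, add_dotProduct, smul_dotProduct,
    smul_eq_mul]
  ring

theorem ts {a e b : V} (ha : Fr a e) (hb : b ⬝ᵥ b = 0) (i j n : ℕ) (h : i + 1 + j = 2 * n) :
    J (ell a ^ i * ell e * ell b ^ j) =
      if j = n then ka n * (a ⬝ᵥ b) ^ i * (e ⬝ᵥ b) else 0 := by
  obtain ⟨c, hc⟩ := ha
  have := der a e c (ell b ^ j) i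
    (if j = n then C (ka n : ℂ) * qd (a ⬝ᵥ b) (e ⬝ᵥ b) (c ⬝ᵥ b) ^ n else 0) fun s => by
      rw [ss (hc s) hb _ _ _ h]
      split_ifs
      · rw [eval_mul, eval_C, eval_pow, qd_ev]
      · simp
  refine mul_left_cancel₀ (Nat.cast_add_one_ne_zero i) (this.trans ?_)
  split_ifs with h'
  · obtain rfl : n = i + 1 := by omega
    simp [qd, derivative_pow]
    ring
  · simp

theorem tt {a e b d : V} (ha : Fr a e) (hb : Fr b d) (i j n : ℕ) (h : i + 1 + (j + 1) = 2 * n) :
    J (ell a ^ i * ell e * (ell b ^ j * ell d)) = if j + 1 = n then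
      ka n / n * (i * (a ⬝ᵥ b) ^ (i - 1) * (a ⬝ᵥ d) * (e ⬝ᵥ b) + (a ⬝ᵥ b) ^ i * (e ⬝ᵥ d)) else 0 := by
  obtain ⟨c, hc⟩ := hb
  have := der b d c (ell a ^ i * ell e) j
    (if j + 1 = n then C (ka n : ℂ) * qd (b ⬝ᵥ a) (d ⬝ᵥ a) (c ⬝ᵥ a) ^ i *
      qd (b ⬝ᵥ e) (d ⬝ᵥ e) (c ⬝ᵥ e) else 0) fun s => by
      rw [mul_comm, ts ha (hc s) _ _ _ h]
      split_ifs
      · rw [eval_mul, eval_mul, eval_C, eval_pow, qd_ev, qd_ev, dotProduct_comm a, dotProduct_comm e]
      · simp
  rw [mul_comm]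
  refine mul_left_cancel₀ (Nat.cast_add_one_ne_zero j) (this.trans ?_)
  split_ifs with h'
  · subst h'
    have := Nat.cast_add_one_ne_zero (R := ℂ) j
    simp [qd, derivative_pow, dotProduct_comm a, dotProduct_comm e]
    field_simp
  · simp

end Pool.Agent.H.MP_be97b2_co
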