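import Mathlib

namespace Pool.Agent.H.MP_be97b2_co

def FF (t q : ℝ) : ℝ :=
  38 * (2 * t - 1) + 34 * ((1 - t) ^ 3 * q - t ^ 3) -
    13 * ((2 * q ^ 2 - 1) * (1 - t) ^ 6 * (14 * t - 1) - t ^ 6 * (14 * t - 13)) -
    18 * ((4 * q ^ 3 - 3 * q) * (1 - t) ^ 9 + t ^ 9)

theorem box0 (t q : ℝ) (h1 : (0) ≤ t) (h2 : t ≤ (1 / 2)) (h3 : (-1) ≤ q) (h4 : q ≤ (0)) :
    FF t q ≤ -1 / 4 := by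
  have k : ∀ x y z w : ℝ, 0 ≤ x → 0 ≤ y → 0 ≤ z → 0 ≤ w → 0 ≤
      (20864) * x ^ 0 * y ^ 9 * z ^ 0 * w ^ 3 +
      (154752) * x ^ 0 * y ^ 9 * z ^ 1 * w ^ 2 +
      (123008) * x ^ 0 * y ^ 9 * z ^ 2 * w ^ 1 +
      (25984) * x ^ 0 * y ^ 9 * z ^ 3 * w ^ 0 +
      (250240) * x ^ 1 * y ^ 8 * z ^ 0 * w ^ 3 +
      (966784) * x ^ 1 * y ^ 8 * z ^ 1 * w ^ 2 +
      (698496) * x ^ 1 * y ^ 8 * z ^ 2 * w ^ 1 +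
      (147840) * x ^ 1 * y ^ 8 * z ^ 3 * w ^ 0 +
      (1016192) * x ^ 2 * y ^ 7 * z ^ 0 * w ^ 3 +
      (2851712) * x ^ 2 * y ^ 7 * z ^ 1 * w ^ 2 +
      (1915776) * x ^ 2 * y ^ 7 * z ^ 2 * w ^ 1 +
      (412032) * x ^ 2 * y ^ 7 * z ^ 3 * w ^ 0 +
      (2147328) * x ^ 3 * y ^ 6 * z ^ 0 * w ^ 3 +
      (5121408) * x ^ 3 * y ^ 6 * z ^ 1 * w ^ 2 +
      (3325184) * x ^ 3 * y ^ 6 * z ^ 2 * w ^ 1 +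
      (738176) * x ^ 3 * y ^ 6 * z ^ 3 * w ^ 0 +
      (2733216) * x ^ 4 * y ^ 5 * z ^ 0 * w ^ 3 +
      (6041824) * x ^ 4 * y ^ 5 * z ^ 1 * w ^ 2 +
      (3922464) * x ^ 4 * y ^ 5 * z ^ 2 * w ^ 1 +
      (904160) * x ^ 4 * y ^ 5 * z ^ 3 * w ^ 0 +
      (2216160) * x ^ 5 * y ^ 4 * z ^ 0 * w ^ 3 +
      (4759136) * x ^ 5 * y ^ 4 * z ^ 1 * w ^ 2 +
      (3147360) * x ^ 5 * y ^ 4 * z ^ 2 * w ^ 1 +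
      (749536) * x ^ 5 * y ^ 4 * z ^ 3 * w ^ 0 +
      (1153600) * x ^ 6 * y ^ 3 * z ^ 0 * w ^ 3 +
      (2462752) * x ^ 6 * y ^ 3 * z ^ 1 * w ^ 2 +
      (1666288) * x ^ 6 * y ^ 3 * z ^ 2 * w ^ 1 +
      (405520) * x ^ 6 * y ^ 3 * z ^ 3 * w ^ 0 +
      (373088) * x ^ 7 * y ^ 2 * z ^ 0 * w ^ 3 +
      (799168) * x ^ 7 * y ^ 2 * z ^ 1 * w ^ 2 +
      (551136) * x ^ 7 * y ^ 2 * z ^ 2 * w ^ 1 +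
      (135424) * x ^ 7 * y ^ 2 * z ^ 3 * w ^ 0 +
      (68380) * x ^ 8 * y ^ 1 * z ^ 0 * w ^ 3 +
      (147416) * x ^ 8 * y ^ 1 * z ^ 1 * w ^ 2 +
      (103068) * x ^ 8 * y ^ 1 * z ^ 2 * w ^ 1 +
      (25328) * x ^ 8 * y ^ 1 * z ^ 3 * w ^ 0 +
      (5472) * x ^ 9 * y ^ 0 * z ^ 0 * w ^ 3 +
      (11906) * x ^ 9 * y ^ 0 * z ^ 1 * w ^ 2 +
      (8428) * x ^ 9 * y ^ 0 * z ^ 2 * w ^ 1 +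
      (2066) * x ^ 9 * y ^ 0 * z ^ 3 * w ^ 0 := by
    intro x y z w _ _ _ _
    positivity
  have := k _ _ _ _ (sub_nonneg.2 h1) (sub_nonneg.2 h2) (sub_nonneg.2 h3) (sub_nonneg.2 h4)
  rw [← sub_nonneg]
  refine this.trans_eq ?_
  unfold FF
  ring

theorem box1 (t q : ℝ) (h1 : (0) ≤ t) (h2 : t ≤ (1 / 2)) (h3 : (0) ≤ q) (h4 : q ≤ (1 / 2)) :
    FF t q ≤ -1 / 4 := by
  have k : ∀ x y z w : ℝ, 0 ≤ x → 0 ≤ y → 0 ≤ z → 0 ≤ w → 0 ≤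
      (207872) * x ^ 0 * y ^ 9 * z ^ 0 * w ^ 3 +
      (443392) * x ^ 0 * y ^ 9 * z ^ 1 * w ^ 2 +
      (236544) * x ^ 0 * y ^ 9 * z ^ 2 * w ^ 1 +
      (37888) * x ^ 0 * y ^ 9 * z ^ 3 * w ^ 0 +
      (1182720) * x ^ 1 * y ^ 8 * z ^ 0 * w ^ 3 +
      (2528256) * x ^ 1 * y ^ 8 * z ^ 1 * w ^ 2 +
      (1534976) * x ^ 1 * y ^ 8 * z ^ 2 * w ^ 1 +
      (355328) * x ^ 1 * y ^ 8 * z ^ 3 * w ^ 0 +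
      (3296256) * x ^ 2 * y ^ 7 * z ^ 0 * w ^ 3 +
      (7170048) * x ^ 2 * y ^ 7 * z ^ 1 * w ^ 2 +
      (4963840) * x ^ 2 * y ^ 7 * z ^ 2 * w ^ 1 +
      (1421824) * x ^ 2 * y ^ 7 * z ^ 3 * w ^ 0 +
      (5905408) * x ^ 3 * y ^ 6 * z ^ 0 * w ^ 3 +
      (13273600) * x ^ 3 * y ^ 6 * z ^ 1 * w ^ 2 +
      (10202112) * x ^ 3 * y ^ 6 * z ^ 2 * w ^ 1 +
      (3220992) * x ^ 3 * y ^ 6 * z ^ 3 * w ^ 0 +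
      (7233280) * x ^ 4 * y ^ 5 * z ^ 0 * w ^ 3 +
      (16859904) * x ^ 4 * y ^ 5 * z ^ 1 * w ^ 2 +
      (13838720) * x ^ 4 * y ^ 5 * z ^ 2 * w ^ 1 +
      (4502400) * x ^ 4 * y ^ 5 * z ^ 3 * w ^ 0 +
      (5996288) * x ^ 5 * y ^ 4 * z ^ 0 * w ^ 3 +
      (14393856) * x ^ 5 * y ^ 4 * z ^ 1 * w ^ 2 +
      (12224896) * x ^ 5 * y ^ 4 * z ^ 2 * w ^ 1 +
      (3972480) * x ^ 5 * y ^ 4 * z ^ 3 * w ^ 0 +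
      (3244160) * x ^ 6 * y ^ 3 * z ^ 0 * w ^ 3 +
      (7933568) * x ^ 6 * y ^ 3 * z ^ 1 * w ^ 2 +
      (6828128) * x ^ 6 * y ^ 3 * z ^ 2 * w ^ 1 +
      (2187104) * x ^ 6 * y ^ 3 * z ^ 3 * w ^ 0 +
      (1083392) * x ^ 7 * y ^ 2 * z ^ 0 * w ^ 3 +
      (2670720) * x ^ 7 * y ^ 2 * z ^ 1 * w ^ 2 +
      (2297600) * x ^ 7 * y ^ 2 * z ^ 2 * w ^ 1 +
      (720640) * x ^ 7 * y ^ 2 * z ^ 3 * w ^ 0 +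
      (202624) * x ^ 8 * y ^ 1 * z ^ 0 * w ^ 3 +
      (499536) * x ^ 8 * y ^ 1 * z ^ 1 * w ^ 2 +
      (425728) * x ^ 8 * y ^ 1 * z ^ 2 * w ^ 1 +
      (130112) * x ^ 8 * y ^ 1 * z ^ 3 * w ^ 0 +
      (16528) * x ^ 9 * y ^ 0 * z ^ 0 * w ^ 3 +
      (40664) * x ^ 9 * y ^ 0 * z ^ 1 * w ^ 2 +
      (34240) * x ^ 9 * y ^ 0 * z ^ 2 * w ^ 1 +
      (10176) * x ^ 9 * y ^ 0 * z ^ 3 * w ^ 0 := by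
    intro x y z w _ _ _ _
    positivity
  have := k _ _ _ _ (sub_nonneg.2 h1) (sub_nonneg.2 h2) (sub_nonneg.2 h3) (sub_nonneg.2 h4)
  rw [← sub_nonneg]
  refine this.trans_eq ?_
  unfold FF
  ring

theorem box2 (t q : ℝ) (h1 : (0) ≤ t) (h2 : t ≤ (1 / 2)) (h3 : (1 / 2) ≤ q) (h4 : q ≤ (3 / 4)) :
    FF t q ≤ -1 / 4 := by
  have k : ∀ x y z w : ℝ, 0 ≤ x → 0 ≤ y → 0 ≤ z → 0 ≤ w → 0 ≤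
      (303104) * x ^ 0 * y ^ 9 * z ^ 0 * w ^ 3 +
      (417792) * x ^ 0 * y ^ 9 * z ^ 1 * w ^ 2 +
      (94208) * x ^ 0 * y ^ 9 * z ^ 2 * w ^ 1 +
      (16384) * x ^ 0 * y ^ 9 * z ^ 3 * w ^ 0 +
      (2842624) * x ^ 1 * y ^ 8 * z ^ 0 * w ^ 3 +
      (6651904) * x ^ 1 * y ^ 8 * z ^ 1 * w ^ 2 +
      (5824512) * x ^ 1 * y ^ 8 * z ^ 2 * w ^ 1 +
      (2181120) * x ^ 1 * y ^ 8 * z ^ 3 * w ^ 0 +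
      (11374592) * x ^ 2 * y ^ 7 * z ^ 0 * w ^ 3 +
      (31330304) * x ^ 2 * y ^ 7 * z ^ 1 * w ^ 2 +
      (31552512) * x ^ 2 * y ^ 7 * z ^ 2 * w ^ 1 +
      (11928576) * x ^ 2 * y ^ 7 * z ^ 3 * w ^ 0 +
      (25767936) * x ^ 3 * y ^ 6 * z ^ 0 * w ^ 3 +
      (75147264) * x ^ 3 * y ^ 6 * z ^ 1 * w ^ 2 +
      (78055424) * x ^ 3 * y ^ 6 * z ^ 2 * w ^ 1 +
      (29063168) * x ^ 3 * y ^ 6 * z ^ 3 * w ^ 0 +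
      (36019200) * x ^ 4 * y ^ 5 * z ^ 0 * w ^ 3 +
      (106731520) * x ^ 4 * y ^ 5 * z ^ 1 * w ^ 2 +
      (110784768) * x ^ 4 * y ^ 5 * z ^ 2 * w ^ 1 +
      (40362752) * x ^ 4 * y ^ 5 * z ^ 3 * w ^ 0 +
      (31779840) * x ^ 5 * y ^ 4 * z ^ 0 * w ^ 3 +
      (94109696) * x ^ 5 * y ^ 4 * z ^ 1 * w ^ 2 +
      (96602880) * x ^ 5 * y ^ 4 * z ^ 2 * w ^ 1 +
      (34418176) * x ^ 5 * y ^ 4 * z ^ 3 * w ^ 0 +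
      (17496832) * x ^ 6 * y ^ 3 * z ^ 0 * w ^ 3 +
      (51423232) * x ^ 6 * y ^ 3 * z ^ 1 * w ^ 2 +
      (52033216) * x ^ 6 * y ^ 3 * z ^ 2 * w ^ 1 +
      (18155200) * x ^ 6 * y ^ 3 * z ^ 3 * w ^ 0 +
      (5765120) * x ^ 7 * y ^ 2 * z ^ 0 * w ^ 3 +
      (16752640) * x ^ 7 * y ^ 2 * z ^ 1 * w ^ 2 +
      (16684800) * x ^ 7 * y ^ 2 * z ^ 2 * w ^ 1 +
      (5707648) * x ^ 7 * y ^ 2 * z ^ 3 * w ^ 0 +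
      (1040896) * x ^ 8 * y ^ 1 * z ^ 0 * w ^ 3 +
      (2981120) * x ^ 8 * y ^ 1 * z ^ 1 * w ^ 2 +
      (2916384) * x ^ 8 * y ^ 1 * z ^ 2 * w ^ 1 +
      (977456) * x ^ 8 * y ^ 1 * z ^ 3 * w ^ 0 +
      (81408) * x ^ 9 * y ^ 0 * z ^ 0 * w ^ 3 +
      (229376) * x ^ 9 * y ^ 0 * z ^ 1 * w ^ 2 +
      (219952) * x ^ 9 * y ^ 0 * z ^ 2 * w ^ 1 +
      (72056) * x ^ 9 * y ^ 0 * z ^ 3 * w ^ 0 := by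
    intro x y z w _ _ _ _
    positivity
  have := k _ _ _ _ (sub_nonneg.2 h1) (sub_nonneg.2 h2) (sub_nonneg.2 h3) (sub_nonneg.2 h4)
  rw [← sub_nonneg]
  refine this.trans_eq ?_
  unfold FF
  ring

theorem box3 (t q : ℝ) (h1 : (0) ≤ t) (h2 : t ≤ (1 / 2)) (h3 : (3 / 4) ≤ q) (h4 : q ≤ (1)) :
    FF t q ≤ -1 / 4 := by
  have k : ∀ x y z w : ℝ, 0 ≤ x → 0 ≤ y → 0 ≤ z → 0 ≤ w → 0 ≤
      (16384) * x ^ 0 * y ^ 9 * z ^ 0 * w ^ 3 +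
      (4096) * x ^ 0 * y ^ 9 * z ^ 1 * w ^ 2 +
      (237568) * x ^ 0 * y ^ 9 * z ^ 2 * w ^ 1 +
      (286720) * x ^ 0 * y ^ 9 * z ^ 3 * w ^ 0 +
      (2181120) * x ^ 1 * y ^ 8 * z ^ 0 * w ^ 3 +
      (7262208) * x ^ 1 * y ^ 8 * z ^ 1 * w ^ 2 +
      (9527296) * x ^ 1 * y ^ 8 * z ^ 2 * w ^ 1 +
      (4612096) * x ^ 1 * y ^ 8 * z ^ 3 * w ^ 0 +
      (11928576) * x ^ 2 * y ^ 7 * z ^ 0 * w ^ 3 +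
      (40018944) * x ^ 2 * y ^ 7 * z ^ 1 * w ^ 2 +
      (48263168) * x ^ 2 * y ^ 7 * z ^ 2 * w ^ 1 +
      (20504576) * x ^ 2 * y ^ 7 * z ^ 3 * w ^ 0 +
      (29063168) * x ^ 3 * y ^ 6 * z ^ 0 * w ^ 3 +
      (96323584) * x ^ 3 * y ^ 6 * z ^ 1 * w ^ 2 +
      (111683584) * x ^ 3 * y ^ 6 * z ^ 2 * w ^ 1 +
      (44810240) * x ^ 3 * y ^ 6 * z ^ 3 * w ^ 0 +
      (40362752) * x ^ 4 * y ^ 5 * z ^ 0 * w ^ 3 +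
      (131391744) * x ^ 4 * y ^ 5 * z ^ 1 * w ^ 2 +
      (147945472) * x ^ 4 * y ^ 5 * z ^ 2 * w ^ 1 +
      (57206784) * x ^ 4 * y ^ 5 * z ^ 3 * w ^ 0 +
      (34418176) * x ^ 5 * y ^ 4 * z ^ 0 * w ^ 3 +
      (109906176) * x ^ 5 * y ^ 4 * z ^ 1 * w ^ 2 +
      (120716288) * x ^ 5 * y ^ 4 * z ^ 2 * w ^ 1 +
      (45373440) * x ^ 5 * y ^ 4 * z ^ 3 * w ^ 0 +
      (18155200) * x ^ 6 * y ^ 3 * z ^ 0 * w ^ 3 +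
      (56897984) * x ^ 6 * y ^ 3 * z ^ 1 * w ^ 2 +
      (61152768) * x ^ 6 * y ^ 3 * z ^ 2 * w ^ 1 +
      (22458368) * x ^ 6 * y ^ 3 * z ^ 3 * w ^ 0 +
      (5707648) * x ^ 7 * y ^ 2 * z ^ 0 * w ^ 3 +
      (17561088) * x ^ 7 * y ^ 2 * z ^ 1 * w ^ 2 +
      (18505216) * x ^ 7 * y ^ 2 * z ^ 2 * w ^ 1 +
      (6662144) * x ^ 7 * y ^ 2 * z ^ 3 * w ^ 0 +
      (977456) * x ^ 8 * y ^ 1 * z ^ 0 * w ^ 3 +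
      (2948352) * x ^ 8 * y ^ 1 * z ^ 1 * w ^ 2 +
      (3045056) * x ^ 8 * y ^ 1 * z ^ 2 * w ^ 1 +
      (1075456) * x ^ 8 * y ^ 1 * z ^ 3 * w ^ 0 +
      (72056) * x ^ 9 * y ^ 0 * z ^ 0 * w ^ 3 +
      (212384) * x ^ 9 * y ^ 0 * z ^ 1 * w ^ 2 +
      (214240) * x ^ 9 * y ^ 0 * z ^ 2 * w ^ 1 +
      (73984) * x ^ 9 * y ^ 0 * z ^ 3 * w ^ 0 := by
    intro x y z w _ _ _ _
    positivity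
  have := k _ _ _ _ (sub_nonneg.2 h1) (sub_nonneg.2 h2) (sub_nonneg.2 h3) (sub_nonneg.2 h4)
  rw [← sub_nonneg]
  refine this.trans_eq ?_
  unfold FF
  ring

theorem box4 (t q : ℝ) (h1 : (1 / 2) ≤ t) (h2 : t ≤ (1)) (h3 : (-1) ≤ q) (h4 : q ≤ (1)) :
    FF t q ≤ -1 / 4 := by
  have k : ∀ x y z w : ℝ, 0 ≤ x → 0 ≤ y → 0 ≤ z → 0 ≤ w → 0 ≤
      (684) * x ^ 0 * y ^ 9 * z ^ 0 * w ^ 3 +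
      (1849 / 2) * x ^ 0 * y ^ 9 * z ^ 1 * w ^ 2 +
      (313) * x ^ 0 * y ^ 9 * z ^ 2 * w ^ 1 +
      (289 / 2) * x ^ 0 * y ^ 9 * z ^ 3 * w ^ 0 +
      (7529 / 2) * x ^ 1 * y ^ 8 * z ^ 0 * w ^ 3 +
      (10859 / 2) * x ^ 1 * y ^ 8 * z ^ 1 * w ^ 2 +
      (4331 / 2) * x ^ 1 * y ^ 8 * z ^ 2 * w ^ 1 +
      (1001 / 2) * x ^ 1 * y ^ 8 * z ^ 3 * w ^ 0 +
      (8372) * x ^ 2 * y ^ 7 * z ^ 0 * w ^ 3 +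
      (13628) * x ^ 2 * y ^ 7 * z ^ 1 * w ^ 2 +
      (5468) * x ^ 2 * y ^ 7 * z ^ 2 * w ^ 1 +
      (212) * x ^ 2 * y ^ 7 * z ^ 3 * w ^ 0 +
      (11032) * x ^ 3 * y ^ 6 * z ^ 0 * w ^ 3 +
      (20864) * x ^ 3 * y ^ 6 * z ^ 1 * w ^ 2 +
      (9984) * x ^ 3 * y ^ 6 * z ^ 2 * w ^ 1 +
      (152) * x ^ 3 * y ^ 6 * z ^ 3 * w ^ 0 +
      (13708) * x ^ 4 * y ^ 5 * z ^ 0 * w ^ 3 +
      (32964) * x ^ 4 * y ^ 5 * z ^ 1 * w ^ 2 +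
      (24804) * x ^ 4 * y ^ 5 * z ^ 2 * w ^ 1 +
      (5548) * x ^ 4 * y ^ 5 * z ^ 3 * w ^ 0 +
      (19316) * x ^ 5 * y ^ 4 * z ^ 0 * w ^ 3 +
      (54684) * x ^ 5 * y ^ 4 * z ^ 1 * w ^ 2 +
      (51420) * x ^ 5 * y ^ 4 * z ^ 2 * w ^ 1 +
      (16052) * x ^ 5 * y ^ 4 * z ^ 3 * w ^ 0 +
      (20224) * x ^ 6 * y ^ 3 * z ^ 0 * w ^ 3 +
      (60128) * x ^ 6 * y ^ 3 * z ^ 1 * w ^ 2 +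
      (59584) * x ^ 6 * y ^ 3 * z ^ 2 * w ^ 1 +
      (19680) * x ^ 6 * y ^ 3 * z ^ 3 * w ^ 0 +
      (11568) * x ^ 7 * y ^ 2 * z ^ 0 * w ^ 3 +
      (34704) * x ^ 7 * y ^ 2 * z ^ 1 * w ^ 2 +
      (34704) * x ^ 7 * y ^ 2 * z ^ 2 * w ^ 1 +
      (11568) * x ^ 7 * y ^ 2 * z ^ 3 * w ^ 0 +
      (2736) * x ^ 8 * y ^ 1 * z ^ 0 * w ^ 3 +
      (8208) * x ^ 8 * y ^ 1 * z ^ 1 * w ^ 2 +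
      (8208) * x ^ 8 * y ^ 1 * z ^ 2 * w ^ 1 +
      (2736) * x ^ 8 * y ^ 1 * z ^ 3 * w ^ 0 +
      (48) * x ^ 9 * y ^ 0 * z ^ 0 * w ^ 3 +
      (144) * x ^ 9 * y ^ 0 * z ^ 1 * w ^ 2 +
      (144) * x ^ 9 * y ^ 0 * z ^ 2 * w ^ 1 +
      (48) * x ^ 9 * y ^ 0 * z ^ 3 * w ^ 0 := by
    intro x y z w _ _ _ _
    positivity
  have := k _ _ _ _ (sub_nonneg.2 h1) (sub_nonneg.2 h2) (sub_nonneg.2 h3) (sub_nonneg.2 h4)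
  rw [← sub_nonneg]
  refine this.trans_eq ?_
  unfold FF
  ring

theorem FF_le (t q : ℝ) (h1 : 0 ≤ t) (h2 : t ≤ 1) (h3 : -1 ≤ q) (h4 : q ≤ 1) :
    FF t q ≤ -1 / 4 := by
  rcases le_total (1 / 2) t with a | a
  · exact box4 t q a h2 h3 h4
  rcases le_total q 0 with b | b
  · exact box0 t q h1 a h3 b
  rcases le_total q (1 / 2) with c | c
  · exact box1 t q h1 a b c
  rcases le_total q (3 / 4) with d | d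
  · exact box2 t q h1 a c d
  · exact box3 t q h1 a d h4

end Pool.Agent.H.MP_be97b2_co
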