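import Pool.Agent.H.MP_be97b2_co.C
import Pool.Agent.H.MP_be97b2_co.D

namespace Pool.Agent.H.MP_be97b2_co

open MeasureTheory Set Complex
open scoped RealInnerProductSpace

noncomputable def ff (α β γ δ : ℂ) (a b e : V) : A :=
  α • (ell a ^ 0 * ell e) + β • (ell a ^ 3 + ell b ^ 3) +
    γ • (ell a ^ 6 * ell e - ell b ^ 6 * ell e) + δ • (ell a ^ 9 - ell b ^ 9)

theorem bil (α β γ δ : ℂ) {a b e a' b' e' : V} (ha : Fr a e) (hb : Fr b e) (ha' : Fr a' e')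
    (hb' : Fr b' e') : J (ff α β γ δ a b e * ff α β γ δ a' b' e') =
      α ^ 2 * ka 1 * (e ⬝ᵥ e') +
      β ^ 2 * ka 3 * ((a ⬝ᵥ a') ^ 3 + (a ⬝ᵥ b') ^ 3 + (b ⬝ᵥ a') ^ 3 + (b ⬝ᵥ b') ^ 3) +
      γ ^ 2 * ka 7 / 7 * (6 * (a ⬝ᵥ a') ^ 5 * (a ⬝ᵥ e') * (e ⬝ᵥ a') + (a ⬝ᵥ a') ^ 6 * (e ⬝ᵥ e') -
        (6 * (a ⬝ᵥ b') ^ 5 * (a ⬝ᵥ e') * (e ⬝ᵥ b') + (a ⬝ᵥ b') ^ 6 * (e ⬝ᵥ e')) -
        (6 * (b ⬝ᵥ a') ^ 5 * (b ⬝ᵥ e') * (e ⬝ᵥ a') + (b ⬝ᵥ a') ^ 6 * (e ⬝ᵥ e')) +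
        (6 * (b ⬝ᵥ b') ^ 5 * (b ⬝ᵥ e') * (e ⬝ᵥ b') + (b ⬝ᵥ b') ^ 6 * (e ⬝ᵥ e'))) +
      δ ^ 2 * ka 9 * ((a ⬝ᵥ a') ^ 9 - (a ⬝ᵥ b') ^ 9 - (b ⬝ᵥ a') ^ 9 + (b ⬝ᵥ b') ^ 9) := by
  have s1 : ∀ {a b e d : V}, Fr a e → Fr b d → ∀ i j, (i + j) % 2 = 0 → _ :=
    fun ha hb i j h => ss ha.iso hb.iso i j ((i + j) / 2) (by omega)
  have s2 : ∀ {a b e d : V}, Fr a e → Fr b d → ∀ i j, (i + j) % 2 = 1 → _ :=
    fun ha hb i j h => ts ha hb.iso i j ((i + 1 + j) / 2) (by omega)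
  have s3 : ∀ {a b e d : V}, Fr a e → Fr b d → ∀ i j, (i + j) % 2 = 1 →
      J (ell a ^ i * (ell b ^ j * ell d)) = _ :=
    fun ha hb i j h => (congrArg J (mul_comm _ _)).trans (s2 hb ha j i (by omega))
  have s4 : ∀ {a b e d : V}, Fr a e → Fr b d → ∀ i j, (i + j) % 2 = 0 → _ :=
    fun ha hb i j h => tt ha hb i j ((i + 1 + (j + 1)) / 2) (by omega)
  simp only [ff, add_mul, mul_add, sub_mul, mul_sub, smul_add, smul_sub, smul_mul_assoc,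
    mul_smul_comm, map_add, map_sub, map_smul, smul_eq_mul,
    s1 ha ha', s1 ha hb', s1 hb ha', s1 hb hb', s2 ha ha', s2 ha hb', s2 hb ha', s2 hb hb',
    s3 ha ha', s3 ha hb', s3 hb ha', s3 hb hb', s4 ha ha', s4 ha hb', s4 hb ha', s4 hb hb',
    Nat.reduceAdd, Nat.reduceMod, Nat.reduceDiv, Nat.reduceEqDiff, Nat.reduceSub, if_true, if_false]
  push_cast
  ring

def xi : V := ![1, I, 0]
def xb : V := ![1, -I, 0]
def ez : V := ![0, 0, 1]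

theorem fr1 : Fr xi ez := ⟨(-1 / 4 : ℂ) • xb, fun s => by
  simp [xi, xb, ez, dotProduct, Fin.sum_univ_three]
  linear_combination (1 + s ^ 2 / 4) ^ 2 * I_mul_I⟩

theorem fr2 : Fr xb ez := ⟨(-1 / 4 : ℂ) • xi, fun s => by
  simp [xi, xb, ez, dotProduct, Fin.sum_univ_three]
  linear_combination (1 + s ^ 2 / 4) ^ 2 * I_mul_I⟩

noncomputable def sg (v a : V) : V := (2 * (a ⬝ᵥ v)) • v - a

theorem sg_dot (v a b : V) : a ⬝ᵥ sg v b = 2 * (a ⬝ᵥ v) * (b ⬝ᵥ v) - a ⬝ᵥ b := by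
  simp only [sg, dotProduct_sub, dotProduct_smul, smul_eq_mul]
  ring

theorem Fr.sg {v a e : V} (hv : v ⬝ᵥ v = 1) (h : Fr a e) : Fr (sg v a) (sg v e) := by
  obtain ⟨c, hc⟩ := h
  refine ⟨MP_be97b2_co.sg v c, fun s => ?_⟩
  have : MP_be97b2_co.sg v a + s • MP_be97b2_co.sg v e + s ^ 2 • MP_be97b2_co.sg v c =
      MP_be97b2_co.sg v (a + s • e + s ^ 2 • c) := by
    simp only [MP_be97b2_co.sg, add_dotProduct, smul_dotProduct, smul_eq_mul]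
    module
  rw [this, sg_dot, dotProduct_comm _ v, dotProduct_comm (MP_be97b2_co.sg _ _), sg_dot, sg_dot, hv,
    hc, dotProduct_comm v]
  ring

theorem ell_up {g : E ≃ₗᵢ[ℝ] E} {v : E} (hg : ∀ x, g x = (2 * ⟪v, x⟫) • v - x) (a : V) (x : X) :
    ell a (up g x) = ell (sg (fun i => (v i : ℂ)) a) x := by
  simp [ell, up, hg, sg, dotProduct, Fin.sum_univ_three, PiLp.inner_apply]
  ring

theorem ff_up {g : E ≃ₗᵢ[ℝ] E} {v : E} (hg : ∀ x, g x = (2 * ⟪v, x⟫) • v - x) (α β γ δ : ℂ)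
    (a b e : V) (x : X) : ff α β γ δ a b e (up g x) = ff α β γ δ (sg (fun i => (v i : ℂ)) a)
      (sg (fun i => (v i : ℂ)) b) (sg (fun i => (v i : ℂ)) e) x := by
  simp [ff, ell_up hg]

theorem ff_re (α β γ δ : ℝ) (x : X) :
    ((ff α β (γ * I) (δ * I) xi xb ez x).re : ℂ) = ff α β (γ * I) (δ * I) xi xb ez x := by
  rw [← conj_eq_iff_re]
  have h1 : starRingEnd ℂ (ell xi x) = ell xb x := by simp [ell, xi, xb, Fin.sum_univ_three]
  have h2 : starRingEnd ℂ (ell xb x) = ell xi x := by simp [ell, xi, xb, Fin.sum_univ_three]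
  have h3 : starRingEnd ℂ (ell ez x) = ell ez x := by simp [ell, ez, Fin.sum_univ_three]
  simp [ff, h1, h2, h3]
  ring

theorem alg (w y z q : ℂ) (h1 : w * y = 1 - z ^ 2) (h2 : w ^ 6 + y ^ 6 = 2 * (1 - z ^ 2) ^ 3 * q) :
    38 * (2 * z * z - 1) + 34 / 16 * ((2 * w * w - 0) ^ 3 + (2 * w * y - 2) ^ 3 +
      (2 * y * w - 2) ^ 3 + (2 * y * y - 0) ^ 3) + -13 / 128 *
      (6 * (2 * w * w - 0) ^ 5 * (2 * w * z - 0) * (2 * z * w - 0) +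
        (2 * w * w - 0) ^ 6 * (2 * z * z - 1) -
        (6 * (2 * w * y - 2) ^ 5 * (2 * w * z - 0) * (2 * z * y - 0) +
          (2 * w * y - 2) ^ 6 * (2 * z * z - 1)) -
        (6 * (2 * y * w - 2) ^ 5 * (2 * y * z - 0) * (2 * z * w - 0) +
          (2 * y * w - 2) ^ 6 * (2 * z * z - 1)) +
        (6 * (2 * y * y - 0) ^ 5 * (2 * y * z - 0) * (2 * z * y - 0) +
          (2 * y * y - 0) ^ 6 * (2 * z * z - 1))) + -18 / 1024 *
      ((2 * w * w - 0) ^ 9 - (2 * w * y - 2) ^ 9 - (2 * y * w - 2) ^ 9 + (2 * y * y - 0) ^ 9) =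
    38 * (2 * z ^ 2 - 1) + 34 * ((1 - z ^ 2) ^ 3 * q - (z ^ 2) ^ 3) -
      13 * ((2 * q ^ 2 - 1) * (1 - z ^ 2) ^ 6 * (14 * z ^ 2 - 1) -
        (z ^ 2) ^ 6 * (14 * z ^ 2 - 13)) -
      18 * ((4 * q ^ 3 - 3 * q) * (1 - z ^ 2) ^ 9 + (z ^ 2) ^ 9) := by
  have e6 : w ^ 12 + y ^ 12 = 2 * (2 * q ^ 2 - 1) * (1 - z ^ 2) ^ 6 := by
    rw [show w ^ 12 + y ^ 12 = (w ^ 6 + y ^ 6) ^ 2 - 2 * (w * y) ^ 6 by ring, h1, h2]
    ring
  have e9 : w ^ 18 + y ^ 18 = 2 * (4 * q ^ 3 - 3 * q) * (1 - z ^ 2) ^ 9 := by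
    rw [show w ^ 18 + y ^ 18 = (w ^ 6 + y ^ 6) ^ 3 - 3 * (w ^ 6 + y ^ 6) * (w * y) ^ 6 by ring,
      h1, h2]
    ring
  rw [show 2 * w * y - 2 = -2 * z ^ 2 by linear_combination 2 * h1,
    show 2 * y * w - 2 = -2 * z ^ 2 by linear_combination 2 * h1]
  linear_combination 17 * h2 - 13 / 2 * (14 * z ^ 2 - 1) * e6 - 9 * e9 - 156 * z ^ 12 * h1

theorem corr : ∃ f : X → ℝ, Continuous f ∧ ∫ x, f x ∂nu = 0 ∧ ∀ (g : E ≃ₗᵢ[ℝ] E) (v : E),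
    ‖v‖ = 1 → (∀ x, g x = (2 * ⟪v, x⟫) • v - x) → ∫ x, f x * f (up g x) ∂nu ≤ -1 / 4 := by
  have k : ∀ (c : ℝ) (n : ℕ), 0 ≤ c → ∃ α : ℝ, (α : ℂ) ^ 2 * ka n = c := fun c n hc =>
    ⟨√(c / ka n), by
      rw [← ofReal_pow, Real.sq_sqrt (div_nonneg hc (ka_pos n).le), ← ofReal_mul,
        div_mul_cancel₀ _ (ka_pos n).ne']⟩
  obtain ⟨α, hα⟩ := k 38 1 (by norm_num)
  obtain ⟨β, hβ⟩ := k (34 / 16) 3 (by norm_num)
  obtain ⟨γ, hγ⟩ := k (13 * 7 / 128) 7 (by norm_num)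
  obtain ⟨δ, hδ⟩ := k (18 / 1024) 9 (by norm_num)
  set F := ff α β (γ * I) (δ * I) xi xb ez with hF
  have cF : Continuous fun x => (F x).re := continuous_re.comp F.continuous
  refine ⟨fun x => (F x).re, cF, ?_, fun g v hv hg => ?_⟩
  · have h := mp nu (up_mp (LinearIsometryEquiv.neg ℝ)) cF.measurable
    have h1 : ∀ a x, ell a (up (LinearIsometryEquiv.neg ℝ) x) = -ell a x := fun a x => by
      simp [ell, up]
    have h2 : ∀ x, F (up (LinearIsometryEquiv.neg ℝ) x) = -F x := fun x => by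
      simp [hF, ff, h1]
      ring
    simp only [h2, neg_re, integral_neg] at h
    linarith
  set u : V := fun i => (v i : ℂ)
  have hv' : v 0 ^ 2 + v 1 ^ 2 + v 2 ^ 2 = 1 := by
    have := EuclideanSpace.real_norm_sq_eq v
    rw [hv, Fin.sum_univ_three] at this
    linarith
  have hu : u ⬝ᵥ u = 1 := by
    simp only [u, dotProduct, Fin.sum_univ_three]
    have := congrArg ofReal hv'
    push_cast at this
    linear_combination this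
  have h1 := bil α β (γ * I) (δ * I) fr1 fr2 (fr1.sg hu) (fr2.sg hu)
  have h2 : ((∫ x, (F x).re * (F (up g x)).re ∂nu : ℝ) : ℂ) = J (ff α β (γ * I) (δ * I) xi xb ez *
      ff α β (γ * I) (δ * I) (sg u xi) (sg u xb) (sg u ez)) := by
    rw [← integral_complex_ofReal]
    refine integral_congr_ae (Filter.Eventually.of_forall fun x => ?_)
    simp only [ofReal_mul, hF, ff_re]
    rw [ff_up hg]
    rfl
  have hy : xb ⬝ᵥ u = starRingEnd ℂ (xi ⬝ᵥ u) := by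
    simp [xi, xb, u, dotProduct, Fin.sum_univ_three]
  have hz : ez ⬝ᵥ u = v 2 := by simp [ez, u, dotProduct, Fin.sum_univ_three]
  have hw : normSq (xi ⬝ᵥ u) = 1 - v 2 ^ 2 := by
    simp [xi, u, dotProduct, Fin.sum_univ_three, normSq_apply]
    linarith
  have h0 : 0 ≤ 1 - v 2 ^ 2 := hw ▸ normSq_nonneg _
  obtain ⟨q, q1, q2⟩ : ∃ q : ℝ, |q| ≤ 1 ∧ ((xi ⬝ᵥ u) ^ 6).re = (1 - v 2 ^ 2) ^ 3 * q := by
    have a1 : |((xi ⬝ᵥ u) ^ 6).re| ≤ (1 - v 2 ^ 2) ^ 3 := by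
      refine (abs_re_le_norm _).trans_eq ?_
      rw [norm_pow, ← hw, normSq_eq_norm_sq]
      ring
    rcases (pow_nonneg h0 3).eq_or_lt with h | h
    · rw [← h] at a1 ⊢
      exact ⟨0, by simp, by simpa using a1⟩
    · exact ⟨_ / (1 - v 2 ^ 2) ^ 3, by rwa [abs_div, abs_of_pos h, div_le_one h],
        (mul_div_cancel₀ _ h.ne').symm⟩
  have d1 : xi ⬝ᵥ xi = 0 := fr1.iso
  have d2 : xb ⬝ᵥ xb = 0 := fr2.iso
  have d3 : xi ⬝ᵥ xb = 2 := by simp [xi, xb, dotProduct, Fin.sum_univ_three]; norm_num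
  have d4 : xb ⬝ᵥ xi = 2 := by rw [dotProduct_comm, d3]
  have d5 : xi ⬝ᵥ ez = 0 := by simp [xi, ez, dotProduct, Fin.sum_univ_three]
  have d6 : xb ⬝ᵥ ez = 0 := by simp [xb, ez, dotProduct, Fin.sum_univ_three]
  have d7 : ez ⬝ᵥ xi = 0 := by rw [dotProduct_comm, d5]
  have d8 : ez ⬝ᵥ xb = 0 := by rw [dotProduct_comm, d6]
  have d9 : ez ⬝ᵥ ez = 1 := by simp [ez, dotProduct, Fin.sum_univ_three]
  have g1 : (γ * I) ^ 2 * ka 7 / 7 = -13 / 128 := by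
    rw [mul_pow, I_sq]
    push_cast at hγ
    linear_combination (-1 / 7) * hγ
  have g2 : (δ * I) ^ 2 * ka 9 = -18 / 1024 := by
    rw [mul_pow, I_sq]
    push_cast at hδ
    linear_combination (-1) * hδ
  push_cast at hα hβ
  simp only [sg_dot, d1, d2, d3, d4, d5, d6, d7, d8, d9, hα, hβ, g1, g2, hz] at h1
  rw [alg _ _ _ q (by rw [hy, mul_conj, hw]; push_cast; rfl)
    (by rw [hy, ← map_pow, add_conj, q2]; push_cast; ring), ← h2] at h1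
  have h3 : ∫ x, (F x).re * (F (up g x)).re ∂nu = FF (v 2 ^ 2) q := by
    unfold FF
    exact_mod_cast h1
  rw [h3]
  exact FF_le _ _ (sq_nonneg _) (by linarith) (abs_le.1 q1).1 (abs_le.1 q1).2

theorem main : ∃ B : Set X, MeasurableSet B ∧ ∃ c < (1 / 4 : ℝ), ∀ g : E ≃ₗᵢ[ℝ] E,
    g ≠ LinearIsometryEquiv.refl ℝ E → (∀ x, g (g x) = x) →
    LinearMap.det (g.toLinearEquiv : E →ₗ[ℝ] E) = 1 →
    nu.real (B ∩ up g ⁻¹' B) ≤ c ∧ nu.real (Bᶜ ∩ up g ⁻¹' Bᶜ) ≤ c := by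
  obtain ⟨f, f1, f2, f3⟩ := corr
  obtain ⟨M, hM⟩ := isCompact_univ.exists_bound_of_continuousOn f1.continuousOn
  set N := |M| + 1
  have hN : 0 < N := by positivity
  have b : ∀ x, |f x / N| ≤ 1 := fun x => by
    rw [abs_div, abs_of_pos hN, div_le_one hN]
    exact (hM x trivial).trans ((le_abs_self M).trans (lt_add_one _).le)
  set ε := 1 / (64 * N ^ 2)
  have hε : 0 < ε := by positivity
  obtain ⟨δ, hδ, h1⟩ := small hε
  have gq : Gd fun x => (1 + f x / N) / 2 := ⟨Continuous.measurable (by fun_prop), fun x => by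
    have := abs_le.1 (b x)
    constructor <;> linarith [this.1, this.2]⟩
  obtain ⟨B, hB, h2⟩ := R3 nu hδ hε gq (by
    rw [integral_div, integral_add (integrable_const _) (ic nu (by fun_prop)), integral_div, f2]
    simp)
  refine ⟨B, hB, 1 / 4 - 2 * ε, by linarith, fun g g1 g2 g3 => ?_⟩
  obtain ⟨v, hv, hg⟩ := half g g1 g2 g3
  obtain ⟨a1, a2⟩ := h2 (up g) ⟨up_mp g, up_iso g, fun x => Subtype.ext (g2 x)⟩
  rw [a2, and_self]
  have cu := (up_iso g).continuous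
  have e1 : ∀ x, (1 + f x / N) / 2 * ((1 + f (up g x) / N) / 2) =
      1 / 4 + f x / (4 * N) + f (up g x) / (4 * N) + f x * f (up g x) / (4 * N ^ 2) := fun x => by
    field_simp
    ring
  simp only [e1] at a1
  rw [integral_add (ic nu (by fun_prop)) (ic nu (by fun_prop)),
    integral_add (ic nu (by fun_prop)) (ic nu (by fun_prop)),
    integral_add (ic nu (by fun_prop)) (ic nu (by fun_prop)), integral_div, integral_div,
    integral_div, integral_div, mp nu (up_mp g) f1.measurable, f2] at a1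
  have a3 : (∫ x, f x * f (up g x) ∂nu) / (4 * N ^ 2) ≤ -4 * ε := by
    refine (div_le_div_of_nonneg_right (f3 g v hv hg) (by positivity)).trans_eq ?_
    simp only [ε]
    field_simp
    ring
  simp only [integral_const, probReal_univ, smul_eq_mul, zero_div] at a1
  linarith [h1 g v hv hg]

end Pool.Agent.H.MP_be97b2_co
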